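import Pool.Agent.helper69.MU.Uni

set_option autoImplicit false

/-!
# Project MQ (MP_753cb1_lc), module MQ3: a pruned tree in a closed set of positive measure

`P = infinitePi`, `w n x = P.real {y | (x l for l < n, y l for l ≥ n) in K}`, `β = P.real K = w 0 x`,
`t n = β (1 - ∑ (l < n) δ l) ≥ β / 2`. `w n x` is the mean of `w (n+1) (update x n σ)` over `σ` (mixing with
`A = {n}`). If `w n x ≥ t n` then the proportion of `σ` with `w (n+1) ≥ t (n+1)` is `≥ t n - t (n+1) = β δ n`.
`S n x = {s n}` for `n` not in `A`, and for `n` in `A`: `S n x = {σ | t (n+1) ≤ w (n+1) (update x n σ)}` if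
`t n ≤ w n x`, and everything else. Along a branch `t n ≤ w n σ` for all `n`, so `σ` is a limit of points of `K`.
-/

namespace Pool.Agent.helper86.MQ

open Finset Filter MeasureTheory Pool.Agent.helper69.MU

theorem uni_prob (X : Type) [Fintype X] [Nonempty X] [MeasurableSpace X] :
    IsProbabilityMeasure (uni X) := by
  unfold uni
  infer_instance

section

variable {X : ℕ → Type} [∀ n, Fintype (X n)] [∀ n, Nonempty (X n)]
  [∀ n, MeasurableSpace (X n)] [∀ n, MeasurableSingletonClass (X n)]

/-- mixing -/
theorem prune_mix (A : Set ℕ) [DecidablePred (· ∈ A)] :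
    ((Measure.infinitePi fun n => uni (X n)).prod (Measure.infinitePi fun n => uni (X n))).map
      (fun p : (∀ n, X n) × (∀ n, X n) => fun l => if l ∈ A then p.1 l else p.2 l) =
      Measure.infinitePi fun n => uni (X n) := by
  haveI : ∀ n, IsProbabilityMeasure (uni (X n)) := fun n => uni_prob (X n)
  refine Measure.eq_infinitePi _ fun s t ht => ?_
  have hf : Measurable (fun p : (∀ n, X n) × (∀ n, X n) => fun l => if l ∈ A then p.1 l else p.2 l) := by
    refine measurable_pi_lambda _ fun l => ?_
    by_cases h : l ∈ A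
    · simp only [h, if_true]
      exact (measurable_pi_apply l).comp measurable_fst
    · simp only [h, if_false]
      exact (measurable_pi_apply l).comp measurable_snd
  rw [Measure.map_apply hf (MeasurableSet.pi s.countable_toSet fun i _ => ht i)]
  have h1 : (fun p : (∀ n, X n) × (∀ n, X n) => fun l => if l ∈ A then p.1 l else p.2 l) ⁻¹'
      (Set.pi (s : Set ℕ) t) = (Set.pi ((s.filter (· ∈ A) : Finset ℕ) : Set ℕ) t) ×ˢ
        (Set.pi ((s.filter (· ∉ A) : Finset ℕ) : Set ℕ) t) := by
    ext p
    simp only [Set.mem_preimage, Set.mem_pi, Finset.mem_coe, Set.mem_prod, Finset.mem_filter]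
    constructor
    · intro h
      refine ⟨fun i hi => ?_, fun i hi => ?_⟩
      · have := h i hi.1
        rwa [if_pos hi.2] at this
      · have := h i hi.1
        rwa [if_neg hi.2] at this
    · rintro ⟨h1, h2⟩ i hi
      by_cases h : i ∈ A
      · rw [if_pos h]
        exact h1 i ⟨hi, h⟩
      · rw [if_neg h]
        exact h2 i ⟨hi, h⟩
  rw [h1, Measure.prod_prod, Measure.infinitePi_pi _ fun i _ => ht i,
    Measure.infinitePi_pi _ fun i _ => ht i, Finset.prod_filter_mul_prod_filter_not]

/-- the first `n` coordinates of `x`, the others of `y` -/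
def mx {X : ℕ → Type} (n : ℕ) (x y : ∀ n, X n) : ∀ n, X n := fun l => if l < n then x l else y l

theorem mx_meas (n : ℕ) (x : ∀ n, X n) : Measurable (mx n x) := by
  refine measurable_pi_lambda _ fun l => ?_
  by_cases h : l < n
  · simp only [mx, h, if_true]
    exact measurable_const
  · simp only [mx, h, if_false]
    exact measurable_pi_apply l

theorem prune_mean (K : Set (∀ n, X n)) (hK : MeasurableSet K) (n : ℕ) (x : ∀ n, X n) :
    (Measure.infinitePi fun n => uni (X n)).real {y | mx n x y ∈ K} * Fintype.card (X n) =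
      ∑ σ, (Measure.infinitePi fun n => uni (X n)).real
        {y | mx (n + 1) (Function.update x n σ) y ∈ K} := by
  classical
  haveI : ∀ n, IsProbabilityMeasure (uni (X n)) := fun n => uni_prob (X n)
  obtain ⟨P, hP⟩ : ∃ P : Measure (∀ n, X n), P = Measure.infinitePi fun n => uni (X n) := ⟨_, rfl⟩
  haveI : IsProbabilityMeasure P := by
    rw [hP]
    infer_instance
  have hB : MeasurableSet {y | mx n x y ∈ K} := mx_meas n x hK
  have hf : Measurable (fun p : (∀ n, X n) × (∀ n, X n) =>
      fun l => if l ∈ ({n} : Set ℕ) then p.1 l else p.2 l) := by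
    refine measurable_pi_lambda _ fun l => ?_
    by_cases h : l ∈ ({n} : Set ℕ)
    · simp only [h, if_true]
      exact (measurable_pi_apply l).comp measurable_fst
    · simp only [h, if_false]
      exact (measurable_pi_apply l).comp measurable_snd
  have h1 : P {y | mx n x y ∈ K} =
      ∑ σ, P {y | mx (n + 1) (Function.update x n σ) y ∈ K} * uni (X n) {σ} := by
    have h0 : P {y | mx n x y ∈ K} = ((P.prod P).map (fun p : (∀ n, X n) × (∀ n, X n) =>
      fun l => if l ∈ ({n} : Set ℕ) then p.1 l else p.2 l)) {y | mx n x y ∈ K} := by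
      rw [hP, prune_mix]
    rw [h0, Measure.map_apply hf hB, Measure.prod_apply (hf hB)]
    have h2 : ∀ p : ∀ n, X n, P (Prod.mk p ⁻¹' ((fun p : (∀ n, X n) × (∀ n, X n) =>
        fun l => if l ∈ ({n} : Set ℕ) then p.1 l else p.2 l) ⁻¹' {y | mx n x y ∈ K})) =
        (fun σ => P {y | mx (n + 1) (Function.update x n σ) y ∈ K}) (p n) := by
      intro p
      show P _ = P _
      congr 1
      ext q
      show mx n x (fun l => if l ∈ ({n} : Set ℕ) then p l else q l) ∈ K ↔
        mx (n + 1) (Function.update x n (p n)) q ∈ K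
      have h3 : mx n x (fun l => if l ∈ ({n} : Set ℕ) then p l else q l) =
          mx (n + 1) (Function.update x n (p n)) q := by
        funext l
        unfold mx
        rcases lt_trichotomy l n with h | h | h
        · rw [if_pos h, if_pos (by omega), Function.update_of_ne h.ne]
        · subst h
          rw [if_neg (lt_irrefl _), if_pos (Nat.lt_succ_self _), Function.update_self]
          exact if_pos (Set.mem_singleton _)
        · rw [if_neg (by omega), if_neg (by omega)]
          refine if_neg fun h4 => ?_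
          rw [Set.mem_singleton_iff] at h4
          omega
      rw [h3]
    rw [lintegral_congr h2]
    have h4 : ∫⁻ p, (fun σ => P {y | mx (n + 1) (Function.update x n σ) y ∈ K}) (p n) ∂P =
        ∫⁻ σ, P {y | mx (n + 1) (Function.update x n σ) y ∈ K} ∂(P.map fun p => p n) :=
      (lintegral_map (μ := P) (f := fun σ => P {y | mx (n + 1) (Function.update x n σ) y ∈ K})
        (g := fun p => p n) (measurable_of_countable _) (measurable_pi_apply n)).symm
    rw [h4]
    have h5 : P.map (fun p => p n) = uni (X n) := by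
      rw [hP]
      exact Measure.infinitePi_map_eval _ n
    rw [h5, lintegral_fintype]
  have h6 : ∀ σ : X n, uni (X n) {σ} = ((Fintype.card (X n) : ENNReal))⁻¹ := by
    intro σ
    unfold uni
    rw [PMF.toMeasure_apply_singleton _ _ (MeasurableSet.singleton σ), PMF.uniformOfFintype_apply]
  have hc : (0 : ℝ) < Fintype.card (X n) := Nat.cast_pos.2 Fintype.card_pos
  have h7 : P.real {y | mx n x y ∈ K} =
      ∑ σ, P.real {y | mx (n + 1) (Function.update x n σ) y ∈ K} * ((Fintype.card (X n) : ℝ))⁻¹ := by
    unfold Measure.real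
    rw [h1, ENNReal.toReal_sum]
    · refine Finset.sum_congr rfl fun σ _ => ?_
      rw [h6, ENNReal.toReal_mul, ENNReal.toReal_inv, ENNReal.toReal_natCast]
    · intro σ _
      rw [h6]
      exact ENNReal.mul_ne_top (measure_ne_top _ _)
        (ENNReal.inv_ne_top.2 (by exact_mod_cast Fintype.card_pos.ne'))
  rw [← hP, h7, ← Finset.sum_mul, mul_assoc, inv_mul_cancel₀ hc.ne', mul_one]

end

theorem exists_pruned {X : ℕ → Type} [∀ n, Fintype (X n)] [∀ n, Nonempty (X n)] [∀ n, TopologicalSpace (X n)]
    [∀ n, DiscreteTopology (X n)] [∀ n, MeasurableSpace (X n)] [∀ n, MeasurableSingletonClass (X n)] (A : Set ℕ)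
    (K : Set (∀ n, X n)) (hK : IsClosed K) (h0 : (Measure.infinitePi fun n => uni (X n)) K ≠ 0) (s : ∀ n, X n)
    (hKA : ∀ x y : ∀ n, X n, (∀ l ∈ A, x l = y l) → (x ∈ K ↔ y ∈ K))
    (δ : ℕ → ℝ) (hδ : ∀ n, 0 < δ n) (hδ1 : ∀ N, ∑ n ∈ range N, δ n ≤ 1 / 2) :
    ∃ (β : ℝ) (S : ∀ n, (∀ l, X l) → Set (X n)), 0 < β ∧
      (∀ n x y, (∀ l, l < n → x l = y l) → S n x = S n y) ∧
      (∀ n x, (S n x).Nonempty) ∧
      (∀ n ∉ A, ∀ x, S n x = {s n}) ∧
      (∀ n ∈ A, ∀ x, β * δ n * Fintype.card (X n) ≤ ((S n x).ncard : ℝ)) ∧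
      ∀ σ : ∀ n, X n, (∀ n, σ n ∈ S n σ) → σ ∈ K := by
  classical
  haveI : ∀ n, IsProbabilityMeasure (uni (X n)) := fun n => uni_prob (X n)
  have hKm : MeasurableSet K := hK.measurableSet
  obtain ⟨w, hw⟩ : ∃ w : ℕ → (∀ n, X n) → ℝ, ∀ n x, w n x =
      (Measure.infinitePi fun n => uni (X n)).real {y | mx n x y ∈ K} := ⟨_, fun _ _ => rfl⟩
  obtain ⟨β, hβ⟩ : ∃ β : ℝ, β = (Measure.infinitePi fun n => uni (X n)).real K := ⟨_, rfl⟩
  have hβ0 : 0 < β := by
    rw [hβ, Measure.real, ENNReal.toReal_pos_iff]
    exact ⟨pos_iff_ne_zero.2 h0, measure_lt_top _ _⟩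
  have hβ1 : β ≤ 1 := by
    rw [hβ]
    exact measureReal_le_one
  have hwle : ∀ n x, w n x ≤ 1 := by
    intro n x
    rw [hw]
    exact measureReal_le_one
  have hw0 : ∀ x, w 0 x = β := by
    intro x
    rw [hw, hβ]
    rfl
  have hwd : ∀ n x y, (∀ l, l < n → x l = y l) → w n x = w n y := by
    intro n x y hxy
    rw [hw, hw]
    congr 1
    ext z
    have h1 : mx n x z = mx n y z := by
      funext l
      unfold mx
      split_ifs with h
      · exact hxy l h
      · rfl
    show mx n x z ∈ K ↔ mx n y z ∈ K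
    rw [h1]
  have hwA : ∀ n, n ∉ A → ∀ x σ, w (n + 1) (Function.update x n σ) = w n x := by
    intro n hn x σ
    rw [hw, hw]
    congr 1
    ext z
    refine hKA _ _ fun l hl => ?_
    have hln : l ≠ n := fun h => hn (h ▸ hl)
    unfold mx
    by_cases h : l < n
    · rw [if_pos (by omega), if_pos h, Function.update_of_ne hln]
    · rw [if_neg (by omega), if_neg h]
  have hmean : ∀ n x, w n x * Fintype.card (X n) = ∑ σ, w (n + 1) (Function.update x n σ) := by
    intro n x
    rw [hw, prune_mean K hKm n x]
    exact Finset.sum_congr rfl fun σ _ => (hw _ _).symm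
  obtain ⟨t, ht⟩ : ∃ t : ℕ → ℝ, ∀ n, t n = β * (1 - ∑ l ∈ range n, δ l) := ⟨_, fun _ => rfl⟩
  have htp : ∀ n, 0 < t n := by
    intro n
    rw [ht]
    have := hδ1 n
    exact mul_pos hβ0 (by linarith)
  have hts : ∀ n, t n - t (n + 1) = β * δ n := by
    intro n
    rw [ht, ht, Finset.sum_range_succ]
    ring
  have hδ2 : ∀ n, δ n ≤ 1 / 2 := by
    intro n
    have h1 := hδ1 (n + 1)
    rw [Finset.sum_range_succ] at h1
    have h2 : 0 ≤ ∑ l ∈ range n, δ l := Finset.sum_nonneg fun l _ => (hδ l).le
    linarith
  obtain ⟨G, hG⟩ : ∃ G : ∀ n, (∀ l, X l) → Finset (X n), ∀ n x, G n x =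
      Finset.univ.filter fun σ => t (n + 1) ≤ w (n + 1) (Function.update x n σ) := ⟨_, fun _ _ => rfl⟩
  obtain ⟨S, hS⟩ : ∃ S : ∀ n, (∀ l, X l) → Set (X n), ∀ n x, S n x =
      if n ∈ A then (if t n ≤ w n x then (G n x : Set (X n)) else Set.univ) else {s n} :=
    ⟨_, fun _ _ => rfl⟩
  have hcount : ∀ n ∈ A, ∀ x, β * δ n * Fintype.card (X n) ≤ ((S n x).ncard : ℝ) := by
    intro n hn x
    have hc : (0 : ℝ) ≤ Fintype.card (X n) := Nat.cast_nonneg _
    rw [hS, if_pos hn]
    split_ifs with h
    · rw [Set.ncard_coe_finset, hG]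
      have h1 : ∑ σ, w (n + 1) (Function.update x n σ) ≤
          ∑ σ : X n, ((if t (n + 1) ≤ w (n + 1) (Function.update x n σ) then (1 : ℝ) else 0) +
            t (n + 1)) := by
        refine Finset.sum_le_sum fun σ _ => ?_
        split_ifs with h2
        · have := hwle (n + 1) (Function.update x n σ)
          have := htp (n + 1)
          linarith
        · push Not at h2
          linarith
      rw [Finset.sum_add_distrib, Finset.sum_boole, Finset.sum_const, nsmul_eq_mul,
        Finset.card_univ, ← hmean] at h1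
      have h3 : t n * Fintype.card (X n) ≤ w n x * Fintype.card (X n) :=
        mul_le_mul_of_nonneg_right h hc
      rw [← hts n]
      linarith
    · rw [Set.ncard_univ, Nat.card_eq_fintype_card]
      have h1 : β * δ n ≤ 1 := by
        have := hδ n
        have := hδ2 n
        nlinarith
      nlinarith
  refine ⟨β, S, hβ0, ?_, ?_, ?_, hcount, ?_⟩
  · intro n x y hxy
    rw [hS, hS]
    have h1 : w n x = w n y := hwd n x y hxy
    have h2 : G n x = G n y := by
      rw [hG, hG]
      congr 1
      funext σ
      rw [hwd (n + 1) (Function.update x n σ) (Function.update y n σ)]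
      intro l hl
      rcases (Nat.lt_succ_iff.1 hl).lt_or_eq with h | h
      · rw [Function.update_of_ne h.ne, Function.update_of_ne h.ne, hxy l h]
      · subst h
        rw [Function.update_self, Function.update_self]
    rw [h1, h2]
  · intro n x
    by_cases hn : n ∈ A
    · have h1 := hcount n hn x
      have hc : (0 : ℝ) < Fintype.card (X n) := Nat.cast_pos.2 Fintype.card_pos
      have h2 : 0 < β * δ n * Fintype.card (X n) := mul_pos (mul_pos hβ0 (hδ n)) hc
      have h3 : (S n x).ncard ≠ 0 := by
        intro h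
        rw [h] at h1
        simp only [Nat.cast_zero] at h1
        linarith
      exact Set.nonempty_of_ncard_ne_zero h3
    · rw [hS, if_neg hn]
      exact Set.singleton_nonempty _
  · intro n hn x
    rw [hS, if_neg hn]
  · intro σ hσ
    have hup : ∀ n, Function.update σ n (σ n) = σ := fun n => Function.update_eq_self n σ
    have hind : ∀ n, t n ≤ w n σ := by
      intro n
      induction n with
      | zero =>
        rw [hw0, ht]
        simp
      | succ n ih =>
        by_cases hn : n ∈ A
        · have h1 := hσ n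
          rw [hS, if_pos hn, if_pos ih, hG] at h1
          have h2 := (Finset.mem_filter.1 (Finset.mem_coe.1 h1)).2
          rwa [hup] at h2
        · have h1 := hwA n hn σ (σ n)
          rw [hup] at h1
          have h2 := hts n
          have h3 : 0 < β * δ n := mul_pos hβ0 (hδ n)
          linarith
    have hne : ∀ n, ∃ y, mx n σ y ∈ K := by
      intro n
      by_contra h
      push Not at h
      have h1 : {y | mx n σ y ∈ K} = ∅ := by
        ext y
        simp [h y]
      have h2 := hind n
      rw [hw, h1, measureReal_empty] at h2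
      have := htp n
      linarith
    choose y hy using hne
    refine hK.mem_of_tendsto (f := fun n => mx n σ (y n)) (b := atTop) ?_ (Eventually.of_forall hy)
    rw [tendsto_pi_nhds]
    intro l
    refine tendsto_const_nhds.congr' ?_
    filter_upwards [eventually_gt_atTop l] with n hn
    show σ l = if l < n then σ l else y n l
    rw [if_pos hn]

end Pool.Agent.helper86.MQ
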